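import Pool.Agent.Y229.CF.Stm
import Pool.Agent.W494.ND.DESC

set_option autoImplicit false

/-! Project CF, part DESCX: descent from power series to polynomials in the coefficients. -/

namespace Pool.Agent.Y317.CF

open MvPolynomial Pool.Agent.W425.ND Pool.Agent.W372.SG Pool.Agent.W494.ND Pool.Agent.Y229.CF

/-- **DESCX** -/
theorem descx : TaskDESCX := by
  classical
  intro r N T v a' B ha hrel
  obtain ⟨s0, n, t, δ, c, m, P, hT, hfe⟩ := hrel
  -- rings
  let S := MvPolynomial (Fin r) ℂ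
  let K := FractionRing (MvPolynomial (Fin r) ℂ)
  let LL := FractionRing (PowerSeries ℂ)
  let ι : MvPolynomial (Fin r) ℂ →+* K := algebraMap _ K
  have hι : Function.Injective ι := IsFractionRing.injective _ K
  let ιL : PowerSeries ℂ →+* LL := algebraMap _ LL
  have hιL : Function.Injective ιL := IsFractionRing.injective _ LL
  let κ : MvPolynomial (Fin r) ℂ →+* PowerSeries ℂ :=
    (aeval a' : MvPolynomial (Fin r) ℂ →ₐ[ℂ] PowerSeries ℂ).toRingHom
  have hκ : Function.Injective κ := ha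
  have hφ : Function.Injective (ιL.comp κ) := hιL.comp hκ
  let ψ : K →+* LL := IsFractionRing.lift hφ
  have hψ : ∀ x, ψ (ι x) = ιL (κ x) := fun x => IsFractionRing.lift_algebraMap hφ x
  obtain ⟨π, hπ, hπ1⟩ := retr ψ
  -- `f`
  set fX : MvPolynomial (Fin N) (MvPolynomial (Fin r) ℂ) := spa v X with hfX
  have hf : spa v a' = map κ fX := by
    rw [hfX]
    unfold spa
    rw [map_sum]
    refine Finset.sum_congr rfl fun j _ => ?_
    rw [map_mul, map_C, map_prod]
    congr 1
    · congr 1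
      exact (aeval_X a' j).symm
    · refine Finset.prod_congr rfl fun i _ => ?_
      rw [map_pow, map_X]
  have hbr : ∀ (c : Fin N →₀ ℕ) (m : ℕ) (s : ℕ) (e : Fin N →₀ ℕ),
      brk (spa v a') (monomial c 1) m s e = κ (brk fX (monomial c 1) m s e) := by
    intro c m s e
    rw [← brk_map κ, ← hf]
    congr 1
    rw [map_monomial, map_one κ]
  have hB : ∀ s : ℕ, algebraMap ℂ (PowerSeries ℂ) (B.eval (s : ℂ)) =
      κ (algebraMap ℂ (MvPolynomial (Fin r) ℂ) (B.eval (s : ℂ))) := by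
    intro s
    exact ((aeval a' : MvPolynomial (Fin r) ℂ →ₐ[ℂ] PowerSeries ℂ).commutes _).symm
  -- denominators
  obtain ⟨d, q, hd, hq⟩ := clear_den (R := MvPolynomial (Fin r) ℂ) (K := K)
    (Finset.univ : Finset (Fin n))
    (fun o => pm π (map ιL (P o)))
  refine ⟨d, hd, s0, n, t, δ, c, m, q, hT, ?_⟩
  intro s hs e
  have h1 := hfe s hs e
  rw [mul_one, hf] at h1
  rw [← map_pow, coeff_map, ← hf, hB] at h1
  have h2 := congrArg π (congrArg ιL h1)
  rw [map_mul ιL, ← hψ, ← hψ, ← mul_one (ψ (ι (coeff e (fX ^ s)))), hπ, hπ, hπ1, mul_one,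
    map_sum ιL, map_sum π] at h2
  apply hι
  rw [map_sum]
  have h3 : ι (algebraMap ℂ (MvPolynomial (Fin r) ℂ) (B.eval (s : ℂ)) * d * coeff e (fX ^ s)) =
      ι d * (ι (algebraMap ℂ (MvPolynomial (Fin r) ℂ) (B.eval (s : ℂ))) *
        ι (coeff e (fX ^ s))) := by
    rw [map_mul, map_mul]; ring
  rw [h3, h2, Finset.mul_sum]
  refine Finset.sum_congr rfl fun k _ => ?_
  rw [low_pi κ ι ιL ψ π hψ hπ (δ k) (P k) (sh (t k) (brk fX (monomial (c k) 1) (m k)))
    (sh (t k) (brk (spa v a') (monomial (c k) 1) (m k))) (fun s e => hbr _ _ _ _) s e,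
    low_iota ι (δ k) (q k) (pm π (map ιL (P k))) d
      (hq k (Finset.mem_univ _)) _ s e]

end Pool.Agent.Y317.CF
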